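import Mathlib

set_option autoImplicit false

open Matrix ComplexConjugate
open scoped ComplexOrder Kronecker MatrixOrder

namespace Pool.Agent.Results.MP_709dca_mp.MultiplesOfThree

variable {ι : Type} [Fintype ι] [DecidableEq ι]

/-- a state: a positive semidefinite operator with trace one -/
def IsState {κ : Type} [Fintype κ] (ρ : Matrix κ κ ℂ) : Prop := ρ.PosSemidef ∧ ρ.trace = 1

/-- separable states: convex combinations of product states `α ⊗ β` -/
def IsSeparable (σ : Matrix (ι × ι) (ι × ι) ℂ) : Prop :=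
  ∃ (n : ℕ) (w : Fin n → ℝ) (α β : Fin n → Matrix ι ι ℂ), (∀ k, 0 ≤ w k) ∧ ∑ k, w k = 1 ∧
    (∀ k, IsState (α k)) ∧ (∀ k, IsState (β k)) ∧ σ = ∑ k, (w k : ℂ) • (α k ⊗ₖ β k)

/-- entanglement witnesses on `ℂ^ι ⊗ ℂ^ι` -/
structure IsEW (W : Matrix (ι × ι) (ι × ι) ℂ) : Prop where
  herm : W.IsHermitian
  nonneg : ∀ σ, IsSeparable σ → 0 ≤ (W * σ).trace.re
  detects : ∃ ρ, IsState ρ ∧ (W * ρ).trace.re < 0

/-- optimal entanglement witnesses -/
def IsOptimalEW (W : Matrix (ι × ι) (ι × ι) ℂ) : Prop :=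
  IsEW W ∧ ¬ ∃ (ε : ℝ) (P : Matrix (ι × ι) (ι × ι) ℂ), 0 < ε ∧ P.PosSemidef ∧ P ≠ 0 ∧
    IsEW (W - (ε : ℂ) • P)

/-- the product vector `e ⊗ f` -/
def pv {ι : Type} (e f : ι → ℂ) : ι × ι → ℂ := fun p => e p.1 * f p.2

/-- the quadratic form `⟨x|W|x⟩` -/
def qf {κ : Type} [Fintype κ] (W : Matrix κ κ ℂ) (x : κ → ℂ) : ℂ := star x ⬝ᵥ W *ᵥ x

theorem trace_mul_vecMulVec {κ : Type} [Fintype κ] (W : Matrix κ κ ℂ) (x : κ → ℂ) :
    (W * vecMulVec x (star x)).trace = qf W x := by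
  rw [mul_vecMulVec, trace_vecMulVec, qf, dotProduct_comm]

theorem isHermitian_smul {κ : Type} {P : Matrix κ κ ℂ} (hP : P.IsHermitian) (ε : ℝ) :
    ((ε : ℂ) • P).IsHermitian := by
  unfold Matrix.IsHermitian
  rw [conjTranspose_smul, hP.eq]
  simp

theorem qf_re_nonneg {κ : Type} [Fintype κ] {P : Matrix κ κ ℂ} (hP : P.PosSemidef) (x : κ → ℂ) :
    0 ≤ (qf P x).re := (Complex.le_def.1 (hP.dotProduct_mulVec_nonneg x)).1

theorem isState_pure {κ : Type} [Fintype κ] (x : κ → ℂ) (hx : x ≠ 0) :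
    IsState (((∑ i, Complex.normSq (x i) : ℝ)⁻¹ : ℂ) • vecMulVec x (star x)) := by
  have hpos : 0 < ∑ i, Complex.normSq (x i) := by
    obtain ⟨i, hi⟩ := Function.ne_iff.1 hx
    exact Finset.sum_pos' (fun j _ => Complex.normSq_nonneg _)
      ⟨i, Finset.mem_univ i, Complex.normSq_pos.2 (by simpa using hi)⟩
  constructor
  · apply (posSemidef_vecMulVec_self_star x).smul
    rw [← Complex.ofReal_inv]
    exact_mod_cast (inv_pos.2 hpos).le
  · rw [trace_smul, trace_vecMulVec]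
    have : x ⬝ᵥ star x = ((∑ i, Complex.normSq (x i) : ℝ) : ℂ) := by
      simp only [dotProduct, Pi.star_apply, Complex.ofReal_sum]
      refine Finset.sum_congr rfl fun i _ => ?_
      rw [← Complex.mul_conj]
      rfl
    rw [this, smul_eq_mul]
    exact inv_mul_cancel₀ (by exact_mod_cast hpos.ne')

omit [Fintype ι] [DecidableEq ι] in
theorem kron_vecMulVec (e f : ι → ℂ) :
    vecMulVec e (star e) ⊗ₖ vecMulVec f (star f) = vecMulVec (pv e f) (star (pv e f)) := by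
  ext p q
  simp only [kroneckerMap_apply, vecMulVec_apply, Pi.star_apply, pv, star_mul']
  ring

omit [DecidableEq ι] in
/-- witnesses are nonnegative on product vectors -/
theorem ew_nonneg {V : Matrix (ι × ι) (ι × ι) ℂ} (h : IsEW V) (e f : ι → ℂ) :
    0 ≤ (qf V (pv e f)).re := by
  by_cases he : e = 0
  · subst he
    have : pv (0 : ι → ℂ) f = 0 := by
      ext p
      simp [pv]
    simp [this, qf]
  by_cases hf : f = 0
  · subst hf
    have : pv e (0 : ι → ℂ) = 0 := by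
      ext p
      simp [pv]
    simp [this, qf]
  have h1 := isState_pure e he
  have h2 := isState_pure f hf
  have hpe : 0 < ∑ i, Complex.normSq (e i) := by
    obtain ⟨i, hi⟩ := Function.ne_iff.1 he
    exact Finset.sum_pos' (fun j _ => Complex.normSq_nonneg _)
      ⟨i, Finset.mem_univ i, Complex.normSq_pos.2 (by simpa using hi)⟩
  have hpf : 0 < ∑ i, Complex.normSq (f i) := by
    obtain ⟨i, hi⟩ := Function.ne_iff.1 hf
    exact Finset.sum_pos' (fun j _ => Complex.normSq_nonneg _)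
      ⟨i, Finset.mem_univ i, Complex.normSq_pos.2 (by simpa using hi)⟩
  have h3 := h.nonneg _ ⟨1, fun _ => 1, fun _ => _, fun _ => _, fun _ => zero_le_one, by simp,
    fun _ => h1, fun _ => h2, rfl⟩
  simp only [Finset.univ_unique, Finset.sum_const, Finset.card_singleton, one_smul,
    Complex.ofReal_one, smul_kronecker, kronecker_smul, kron_vecMulVec, Matrix.mul_smul,
    trace_smul, trace_mul_vecMulVec, smul_eq_mul] at h3
  set a := ∑ i, Complex.normSq (e i)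
  set b := ∑ i, Complex.normSq (f i)
  rw [← Complex.ofReal_inv, ← Complex.ofReal_inv, Complex.re_ofReal_mul,
    Complex.re_ofReal_mul] at h3
  by_contra hneg
  push Not at hneg
  have : a⁻¹ * (b⁻¹ * (qf V (pv e f)).re) < 0 :=
    mul_neg_of_pos_of_neg (inv_pos.2 hpe) (mul_neg_of_pos_of_neg (inv_pos.2 hpf) hneg)
  linarith

theorem sep_nonneg {W : Matrix (ι × ι) (ι × ι) ℂ} (h : ∀ e f, 0 ≤ (qf W (pv e f)).re)
    {σ : Matrix (ι × ι) (ι × ι) ℂ} (hσ : IsSeparable σ) : 0 ≤ (W * σ).trace.re := by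
  obtain ⟨n, w, α, β, hw, -, hα, hβ, rfl⟩ := hσ
  rw [Finset.mul_sum, trace_sum, Complex.re_sum]
  refine Finset.sum_nonneg fun k _ => ?_
  rw [Matrix.mul_smul, trace_smul, smul_eq_mul, Complex.re_ofReal_mul]
  refine mul_nonneg (hw k) ?_
  obtain ⟨A, hA⟩ := CStarAlgebra.nonneg_iff_eq_star_mul_self.mp (hα k).1.nonneg
  obtain ⟨B, hB⟩ := CStarAlgebra.nonneg_iff_eq_star_mul_self.mp (hβ k).1.nonneg
  rw [star_eq_conjTranspose] at hA hB
  rw [hA, hB, mul_kronecker_mul, ← conjTranspose_kronecker, ← Matrix.mul_assoc, trace_mul_comm,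
    ← Matrix.mul_assoc]
  simp only [trace, diag_apply, Complex.re_sum]
  refine Finset.sum_nonneg fun p _ => ?_
  have : (A ⊗ₖ B * W * (A ⊗ₖ B)ᴴ) p p
      = qf W (pv (fun i => star (A p.1 i)) (fun j => star (B p.2 j))) := by
    rw [qf, Matrix.mul_assoc, Matrix.mul_apply, dotProduct]
    refine Finset.sum_congr rfl fun q _ => ?_
    simp only [Pi.star_apply, pv, star_mul', star_star, kroneckerMap_apply]
    congr 1
    simp only [Matrix.mul_apply, mulVec, dotProduct, conjTranspose_apply, kroneckerMap_apply,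
      star_mul', pv]
  rw [this]
  exact h _ _

/-- the criterion: block-positive with spanning zeros -/
theorem optimal_of {W : Matrix (ι × ι) (ι × ι) ℂ} (hW : W.IsHermitian) (h0 : W ≠ 0)
    (hb : ∀ e f, 0 ≤ (qf W (pv e f)).re)
    (hz : ∀ t : ι × ι → ℂ, (∀ e f, (qf W (pv e f)).re = 0 → t ⬝ᵥ pv e f = 0) → t = 0) :
    IsOptimalEW W := by
  refine ⟨⟨hW, fun σ hσ => sep_nonneg hb hσ, ?_⟩, ?_⟩
  · by_contra hcon
    push Not at hcon
    have hall : ∀ x, 0 ≤ (qf W x).re := by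
      intro x
      by_cases hx : x = 0
      · simp [hx, qf]
      have h1 := hcon _ (isState_pure x hx)
      have hpe : 0 < ∑ i, Complex.normSq (x i) := by
        obtain ⟨i, hi⟩ := Function.ne_iff.1 hx
        exact Finset.sum_pos' (fun j _ => Complex.normSq_nonneg _)
          ⟨i, Finset.mem_univ i, Complex.normSq_pos.2 (by simpa using hi)⟩
      rw [Matrix.mul_smul, trace_smul, trace_mul_vecMulVec, smul_eq_mul, ← Complex.ofReal_inv,
        Complex.re_ofReal_mul] at h1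
      by_contra hneg
      push Not at hneg
      have := mul_neg_of_pos_of_neg (inv_pos.2 hpe) hneg
      linarith
    have him : ∀ x, (qf W x).im = 0 := by
      intro x
      have := hW.im_star_dotProduct_mulVec_self x
      simpa [qf] using this
    have hpsd : W.PosSemidef := .of_dotProduct_mulVec_nonneg hW fun x => by
      rw [Complex.le_def]
      exact ⟨hall x, (him x).symm⟩
    apply h0
    ext p q
    have : W p = 0 := hz _ fun e f hef => by
      have h1 : qf W (pv e f) = 0 := Complex.ext hef (him _)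
      have h2 := (hpsd.dotProduct_mulVec_zero_iff (pv e f)).1 h1
      exact congrFun h2 p
    simp [this]
  · rintro ⟨ε, P, hε, hP, hP0, hEW⟩
    apply hP0
    ext p q
    have : P p = 0 := hz _ fun e f hef => by
      have h1 := ew_nonneg hEW e f
      have h2 : qf (W - (ε : ℂ) • P) (pv e f) = qf W (pv e f) - (ε : ℂ) * qf P (pv e f) := by
        simp only [qf, sub_mulVec, smul_mulVec, dotProduct_sub, dotProduct_smul, smul_eq_mul]
      rw [h2, Complex.sub_re, hef, Complex.re_ofReal_mul] at h1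
      have h3 := qf_re_nonneg hP (pv e f)
      have h4 : (qf P (pv e f)).re = 0 := by
        by_contra hne
        have : 0 < (qf P (pv e f)).re := lt_of_le_of_ne h3 (Ne.symm hne)
        have := mul_pos hε this
        linarith
      have h5 : (qf P (pv e f)).im = 0 := by
        have := hP.1.im_star_dotProduct_mulVec_self (pv e f)
        simpa [qf] using this
      have h6 := (hP.dotProduct_mulVec_zero_iff (pv e f)).1 (Complex.ext h4 h5)
      exact congrFun h6 p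
    simp [this]

/-! ### the witness on `ℂ³ ⊗ ℂ³` -/

/-- an integer `9 × 9` matrix -/
def N3 : Matrix (Fin 3 × Fin 3) (Fin 3 × Fin 3) ℂ := fun p q =>
  (if p = q then 5 else 0) + (if p.1 = q.2 ∧ p.2 = q.1 then 3 else 0)
    - (if p.1 = p.2 ∧ p = q then 6 else 0) - (if p.1 + p.2 = q.1 + q.2 then 2 else 0)

/-- the quadratic form of one of the three blocks -/
noncomputable def q3 (T x y : ℂ) : ℂ :=
  3 * (x * conj x + y * conj y) + (conj x * y + x * conj y)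
    - 2 * (conj T * (x + y)) - 2 * (T * (conj x + conj y))

theorem qf_N3 (e f : Fin 3 → ℂ) : qf N3 (pv e f)
    = q3 (e 0 * f 0) (e 1 * f 2) (e 2 * f 1) + q3 (e 1 * f 1) (e 2 * f 0) (e 0 * f 2)
      + q3 (e 2 * f 2) (e 0 * f 1) (e 1 * f 0) := by
  simp [qf, N3, pv, q3, mulVec, dotProduct, Fintype.sum_prod_type, Fin.sum_univ_three]
  ring

theorem hsq (a b : ℝ) (h : a ^ 2 + b ^ 2 = 0) : a = 0 ∧ b = 0 := by
  have := (add_eq_zero_iff_of_nonneg (sq_nonneg a) (sq_nonneg b)).1 h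
  exact ⟨by simpa using this.1, by simpa using this.2⟩

/-- the Cauchy-Schwarz inequality behind block positivity -/
theorem cs_bounds (p0 p1 p2 u0 u1 u2 v0 v1 v2 q0 q1 q2 r0 r1 r2 s0 s1 s2 : ℝ)
    (hp0 : 0 ≤ p0) (hp1 : 0 ≤ p1) (hp2 : 0 ≤ p2) (hq0 : 0 ≤ q0) (hq1 : 0 ≤ q1) (hq2 : 0 ≤ q2)
    (h0 : u0 ^ 2 + v0 ^ 2 = p0 * p1) (h1 : u1 ^ 2 + v1 ^ 2 = p1 * p2)
    (h2 : u2 ^ 2 + v2 ^ 2 = p2 * p0)
    (g0 : r0 ^ 2 + s0 ^ 2 = q0 * q1) (g1 : r1 ^ 2 + s1 ^ 2 = q1 * q2)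
    (g2 : r2 ^ 2 + s2 ^ 2 = q2 * q0) :
    0 ≤ 3 * (p0 + p1 + p2) * (q0 + q1 + q2) - 3 * (p0 * q0 + p1 * q1 + p2 * q2)
      + 6 * (u0 * r0 + v0 * s0 + (u1 * r1 + v1 * s1) + (u2 * r2 + v2 * s2))
      - 4 * ((u0 + u1 + u2) * (r0 + r1 + r2) + (v0 + v1 + v2) * (s0 + s1 + s2)) ∧
    3 * (p0 + p1 + p2) * (q0 + q1 + q2) - 3 * (p0 * q0 + p1 * q1 + p2 * q2)
      + 6 * (u0 * r0 + v0 * s0 + (u1 * r1 + v1 * s1) + (u2 * r2 + v2 * s2))
      - 4 * ((u0 + u1 + u2) * (r0 + r1 + r2) + (v0 + v1 + v2) * (s0 + s1 + s2))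
      ≤ 4 * ((p0 + p1 + p2) * (q0 + q1 + q2)) := by
  set X := 3 * (p0 + p1 + p2) * (q0 + q1 + q2) - 3 * (p0 * q0 + p1 * q1 + p2 * q2)
      + 6 * (u0 * r0 + v0 * s0 + (u1 * r1 + v1 * s1) + (u2 * r2 + v2 * s2))
      - 4 * ((u0 + u1 + u2) * (r0 + r1 + r2) + (v0 + v1 + v2) * (s0 + s1 + s2)) with hX
  have hA : 2 * ((p0 + p1 + p2) * (q0 + q1 + q2)) * X =
      1 / 3 * (((p0 + p1 + p2) * (3 * q0 - (q0 + q1 + q2))
          - (q0 + q1 + q2) * (3 * p0 - (p0 + p1 + p2))) ^ 2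
        + ((p0 + p1 + p2) * (3 * q1 - (q0 + q1 + q2))
          - (q0 + q1 + q2) * (3 * p1 - (p0 + p1 + p2))) ^ 2
        + ((p0 + p1 + p2) * (3 * q2 - (q0 + q1 + q2))
          - (q0 + q1 + q2) * (3 * p2 - (p0 + p1 + p2))) ^ 2)
      + 6 * (((q0 + q1 + q2) * (u0 - 2 / 3 * (u0 + u1 + u2)) + (p0 + p1 + p2) * r0) ^ 2
        + ((q0 + q1 + q2) * (u1 - 2 / 3 * (u0 + u1 + u2)) + (p0 + p1 + p2) * r1) ^ 2
        + ((q0 + q1 + q2) * (u2 - 2 / 3 * (u0 + u1 + u2)) + (p0 + p1 + p2) * r2) ^ 2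
        + ((q0 + q1 + q2) * (v0 - 2 / 3 * (v0 + v1 + v2)) + (p0 + p1 + p2) * s0) ^ 2
        + ((q0 + q1 + q2) * (v1 - 2 / 3 * (v0 + v1 + v2)) + (p0 + p1 + p2) * s1) ^ 2
        + ((q0 + q1 + q2) * (v2 - 2 / 3 * (v0 + v1 + v2)) + (p0 + p1 + p2) * s2) ^ 2) := by
    rw [hX]
    linear_combination (-6) * (q0 + q1 + q2) ^ 2 * (h0 + h1 + h2)
      - 6 * (p0 + p1 + p2) ^ 2 * (g0 + g1 + g2)
  have hB : 2 * ((p0 + p1 + p2) * (q0 + q1 + q2))
        * (4 * ((p0 + p1 + p2) * (q0 + q1 + q2)) - X) =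
      1 / 3 * (((p0 + p1 + p2) * (3 * q0 - (q0 + q1 + q2))
          + (q0 + q1 + q2) * (3 * p0 - (p0 + p1 + p2))) ^ 2
        + ((p0 + p1 + p2) * (3 * q1 - (q0 + q1 + q2))
          + (q0 + q1 + q2) * (3 * p1 - (p0 + p1 + p2))) ^ 2
        + ((p0 + p1 + p2) * (3 * q2 - (q0 + q1 + q2))
          + (q0 + q1 + q2) * (3 * p2 - (p0 + p1 + p2))) ^ 2)
      + 6 * (((q0 + q1 + q2) * (u0 - 2 / 3 * (u0 + u1 + u2)) - (p0 + p1 + p2) * r0) ^ 2
        + ((q0 + q1 + q2) * (u1 - 2 / 3 * (u0 + u1 + u2)) - (p0 + p1 + p2) * r1) ^ 2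
        + ((q0 + q1 + q2) * (u2 - 2 / 3 * (u0 + u1 + u2)) - (p0 + p1 + p2) * r2) ^ 2
        + ((q0 + q1 + q2) * (v0 - 2 / 3 * (v0 + v1 + v2)) - (p0 + p1 + p2) * s0) ^ 2
        + ((q0 + q1 + q2) * (v1 - 2 / 3 * (v0 + v1 + v2)) - (p0 + p1 + p2) * s1) ^ 2
        + ((q0 + q1 + q2) * (v2 - 2 / 3 * (v0 + v1 + v2)) - (p0 + p1 + p2) * s2) ^ 2) := by
    rw [hX]
    linear_combination (-6) * (q0 + q1 + q2) ^ 2 * (h0 + h1 + h2)
      - 6 * (p0 + p1 + p2) ^ 2 * (g0 + g1 + g2)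
  have hPP : 0 ≤ (p0 + p1 + p2) * (q0 + q1 + q2) := by positivity
  rcases hPP.lt_or_eq with hpos | hzero
  · constructor
    · by_contra hneg
      push Not at hneg
      have h3 : 2 * ((p0 + p1 + p2) * (q0 + q1 + q2)) * X < 0 :=
        mul_neg_of_pos_of_neg (by linarith) hneg
      rw [hA] at h3
      exact absurd h3 (not_lt.2 (by positivity))
    · by_contra hneg
      push Not at hneg
      have h3 : 2 * ((p0 + p1 + p2) * (q0 + q1 + q2))
          * (4 * ((p0 + p1 + p2) * (q0 + q1 + q2)) - X) < 0 :=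
        mul_neg_of_pos_of_neg (by linarith) (by linarith)
      rw [hB] at h3
      exact absurd h3 (not_lt.2 (by positivity))
  · clear hA hB
    have hXz : X = 0 := by
      rcases mul_eq_zero.1 hzero.symm with h | h
      · have e0 : p0 = 0 := by linarith
        have e1 : p1 = 0 := by linarith
        have e2 : p2 = 0 := by linarith
        subst e0 e1 e2
        obtain ⟨k0, l0⟩ := hsq _ _ (h0.trans (zero_mul _))
        obtain ⟨k1, l1⟩ := hsq _ _ (h1.trans (zero_mul _))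
        obtain ⟨k2, l2⟩ := hsq _ _ (h2.trans (zero_mul _))
        rw [hX, k0, k1, k2, l0, l1, l2]
        ring
      · have e0 : q0 = 0 := by linarith
        have e1 : q1 = 0 := by linarith
        have e2 : q2 = 0 := by linarith
        subst e0 e1 e2
        obtain ⟨k0, l0⟩ := hsq _ _ (g0.trans (zero_mul _))
        obtain ⟨k1, l1⟩ := hsq _ _ (g1.trans (zero_mul _))
        obtain ⟨k2, l2⟩ := hsq _ _ (g2.trans (zero_mul _))
        rw [hX, k0, k1, k2, l0, l1, l2]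
        ring
    rw [hXz, ← hzero]
    constructor <;> norm_num

theorem qf_N3_bounds (e f : Fin 3 → ℂ) : 0 ≤ (qf N3 (pv e f)).re ∧
    (qf N3 (pv e f)).re ≤ 4 * ((∑ i, Complex.normSq (e i)) * ∑ i, Complex.normSq (f i)) := by
  obtain ⟨a0, b0, h0⟩ : ∃ a b : ℝ, e 0 = ⟨a, b⟩ := ⟨_, _, rfl⟩
  obtain ⟨a1, b1, h1⟩ : ∃ a b : ℝ, e 1 = ⟨a, b⟩ := ⟨_, _, rfl⟩
  obtain ⟨a2, b2, h2⟩ : ∃ a b : ℝ, e 2 = ⟨a, b⟩ := ⟨_, _, rfl⟩
  obtain ⟨c0, d0, g0⟩ : ∃ a b : ℝ, f 0 = ⟨a, b⟩ := ⟨_, _, rfl⟩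
  obtain ⟨c1, d1, g1⟩ : ∃ a b : ℝ, f 1 = ⟨a, b⟩ := ⟨_, _, rfl⟩
  obtain ⟨c2, d2, g2⟩ : ∃ a b : ℝ, f 2 = ⟨a, b⟩ := ⟨_, _, rfl⟩
  have key := cs_bounds (a0 ^ 2 + b0 ^ 2) (a1 ^ 2 + b1 ^ 2) (a2 ^ 2 + b2 ^ 2)
    (a0 * a1 + b0 * b1) (a1 * a2 + b1 * b2) (a2 * a0 + b2 * b0)
    (b0 * a1 - a0 * b1) (b1 * a2 - a1 * b2) (b2 * a0 - a2 * b0)
    (c0 ^ 2 + d0 ^ 2) (c1 ^ 2 + d1 ^ 2) (c2 ^ 2 + d2 ^ 2)
    (c0 * c1 + d0 * d1) (c1 * c2 + d1 * d2) (c2 * c0 + d2 * d0)
    (d0 * c1 - c0 * d1) (d1 * c2 - c1 * d2) (d2 * c0 - c2 * d0)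
    (by positivity) (by positivity) (by positivity) (by positivity) (by positivity)
    (by positivity) (by ring) (by ring) (by ring) (by ring) (by ring) (by ring)
  have hre : (qf N3 (pv e f)).re = 3 * (a0 ^ 2 + b0 ^ 2 + (a1 ^ 2 + b1 ^ 2) + (a2 ^ 2 + b2 ^ 2))
      * (c0 ^ 2 + d0 ^ 2 + (c1 ^ 2 + d1 ^ 2) + (c2 ^ 2 + d2 ^ 2))
      - 3 * ((a0 ^ 2 + b0 ^ 2) * (c0 ^ 2 + d0 ^ 2) + (a1 ^ 2 + b1 ^ 2) * (c1 ^ 2 + d1 ^ 2)
        + (a2 ^ 2 + b2 ^ 2) * (c2 ^ 2 + d2 ^ 2))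
      + 6 * ((a0 * a1 + b0 * b1) * (c0 * c1 + d0 * d1) + (b0 * a1 - a0 * b1) * (d0 * c1 - c0 * d1)
        + ((a1 * a2 + b1 * b2) * (c1 * c2 + d1 * d2) + (b1 * a2 - a1 * b2) * (d1 * c2 - c1 * d2))
        + ((a2 * a0 + b2 * b0) * (c2 * c0 + d2 * d0)
          + (b2 * a0 - a2 * b0) * (d2 * c0 - c2 * d0)))
      - 4 * ((a0 * a1 + b0 * b1 + (a1 * a2 + b1 * b2) + (a2 * a0 + b2 * b0))
          * (c0 * c1 + d0 * d1 + (c1 * c2 + d1 * d2) + (c2 * c0 + d2 * d0))
        + (b0 * a1 - a0 * b1 + (b1 * a2 - a1 * b2) + (b2 * a0 - a2 * b0))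
          * (d0 * c1 - c0 * d1 + (d1 * c2 - c1 * d2) + (d2 * c0 - c2 * d0))) := by
    rw [qf_N3, h0, h1, h2, g0, g1, g2]
    simp [q3]
    ring
  have hP : ∑ i, Complex.normSq (e i) = a0 ^ 2 + b0 ^ 2 + (a1 ^ 2 + b1 ^ 2) + (a2 ^ 2 + b2 ^ 2) := by
    rw [Fin.sum_univ_three, h0, h1, h2]
    simp only [Complex.normSq_mk]
    ring
  have hQ : ∑ i, Complex.normSq (f i) = c0 ^ 2 + d0 ^ 2 + (c1 ^ 2 + d1 ^ 2) + (c2 ^ 2 + d2 ^ 2) := by
    rw [Fin.sum_univ_three, g0, g1, g2]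
    simp only [Complex.normSq_mk]
    ring
  rw [hre, hP, hQ]
  exact key

/-! ### zeros and spanning -/

/-- diagonal phases `1, ζ, ζ²` -/
def tw (ζ : ℂ) (e : Fin 3 → ℂ) : Fin 3 → ℂ := ![e 0, ζ * e 1, ζ ^ 2 * e 2]

/-- cyclic shift of the coordinates -/
def sh (e : Fin 3 → ℂ) : Fin 3 → ℂ := ![e 1, e 2, e 0]

/-- a primitive cube root of unity -/
noncomputable def om : ℂ := ⟨-1 / 2, Real.sqrt 3 / 2⟩

theorem om_rel : om ^ 2 + om + 1 = 0 := by
  have h3 : Real.sqrt 3 * Real.sqrt 3 = 3 := Real.mul_self_sqrt (by norm_num)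
  apply Complex.ext
  · simp [om, pow_two]
    nlinarith
  · simp [om, pow_two]
    ring

theorem om_conj : conj om = om ^ 2 := by
  have h3 : Real.sqrt 3 * Real.sqrt 3 = 3 := Real.mul_self_sqrt (by norm_num)
  apply Complex.ext
  · simp [om, pow_two]
    nlinarith
  · simp [om, pow_two]
    ring

theorem om_cube : om ^ 3 = 1 := by
  linear_combination (om - 1) * om_rel

theorem q3_smul (l T x y : ℂ) (hl : l * conj l = 1) : q3 (l * T) (l * x) (l * y) = q3 T x y := by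
  unfold q3
  simp only [map_mul]
  linear_combination (3 * (x * conj x + y * conj y) + (conj x * y + x * conj y)
    - 2 * (conj T * (x + y)) - 2 * (T * (conj x + conj y))) * hl

theorem qf_tw (ζ : ℂ) (h1 : ζ * conj ζ = 1) (h3 : ζ ^ 3 = 1) (e f : Fin 3 → ℂ) :
    qf N3 (pv (tw ζ e) (tw ζ f)) = qf N3 (pv e f) := by
  rw [qf_N3, qf_N3]
  have a1 : (tw ζ e) 1 * (tw ζ f) 2 = e 1 * f 2 := by
    simp [tw]
    linear_combination (e 1 * f 2) * h3
  have a2 : (tw ζ e) 2 * (tw ζ f) 1 = e 2 * f 1 := by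
    simp [tw]
    linear_combination (e 2 * f 1) * h3
  have a0 : (tw ζ e) 0 * (tw ζ f) 0 = e 0 * f 0 := by simp [tw]
  have b0 : (tw ζ e) 1 * (tw ζ f) 1 = ζ ^ 2 * (e 1 * f 1) := by
    simp [tw]
    ring
  have b1 : (tw ζ e) 2 * (tw ζ f) 0 = ζ ^ 2 * (e 2 * f 0) := by
    simp [tw]
    ring
  have b2 : (tw ζ e) 0 * (tw ζ f) 2 = ζ ^ 2 * (e 0 * f 2) := by
    simp [tw]
    ring
  have c0 : (tw ζ e) 2 * (tw ζ f) 2 = ζ * (e 2 * f 2) := by
    simp [tw]
    linear_combination (ζ * e 2 * f 2) * h3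
  have c1 : (tw ζ e) 0 * (tw ζ f) 1 = ζ * (e 0 * f 1) := by
    simp [tw]
    ring
  have c2 : (tw ζ e) 1 * (tw ζ f) 0 = ζ * (e 1 * f 0) := by
    simp [tw]
    ring
  rw [a0, a1, a2, b0, b1, b2, c0, c1, c2, q3_smul ζ _ _ _ h1, q3_smul (ζ ^ 2)]
  rw [map_pow]
  linear_combination (ζ * conj ζ + 1) * h1

theorem qf_sh (e f : Fin 3 → ℂ) : qf N3 (pv (sh e) (sh f)) = qf N3 (pv e f) := by
  rw [qf_N3, qf_N3]
  simp only [sh, Matrix.cons_val_zero, Matrix.cons_val_one, Matrix.cons_val]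
  ring

theorem nsq_tw (ζ : ℂ) (h1 : ζ * conj ζ = 1) (e : Fin 3 → ℂ) :
    ∑ i, Complex.normSq (tw ζ e i) = ∑ i, Complex.normSq (e i) := by
  have hn : Complex.normSq ζ = 1 := by
    have := Complex.mul_conj ζ
    rw [h1] at this
    exact_mod_cast this.symm
  simp [tw, Fin.sum_univ_three, hn]

theorem nsq_sh (e : Fin 3 → ℂ) : ∑ i, Complex.normSq (sh e i) = ∑ i, Complex.normSq (e i) := by
  simp [sh, Fin.sum_univ_three]
  ring

/-- a class of pairs closed under the twist and the shift -/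
structure Closed (Z : (Fin 3 → ℂ) → (Fin 3 → ℂ) → Prop) : Prop where
  tw : ∀ ζ e f, ζ * conj ζ = 1 → ζ ^ 3 = 1 → Z e f → Z (tw ζ e) (tw ζ f)
  sh : ∀ e f, Z e f → Z (sh e) (sh f)

theorem three_parts {Z : (Fin 3 → ℂ) → (Fin 3 → ℂ) → Prop} (hZ : Closed Z)
    (t : Fin 3 × Fin 3 → ℂ) (ht : ∀ e f, Z e f → t ⬝ᵥ pv e f = 0) (e f : Fin 3 → ℂ)
    (h : Z e f) :
    (t (0, 0) * (e 0 * f 0) + t (1, 2) * (e 1 * f 2) + t (2, 1) * (e 2 * f 1) = 0) ∧
    (t (0, 1) * (e 0 * f 1) + t (1, 0) * (e 1 * f 0) + t (2, 2) * (e 2 * f 2) = 0) ∧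
    (t (0, 2) * (e 0 * f 2) + t (2, 0) * (e 2 * f 0) + t (1, 1) * (e 1 * f 1) = 0) := by
  have h1 := ht _ _ (hZ.tw 1 e f (by simp) (by simp) h)
  have hc : om * conj om = 1 := by
    rw [om_conj]
    linear_combination om_cube
  have h2 := ht _ _ (hZ.tw om e f hc om_cube h)
  have h3 := ht _ _ (hZ.tw (om ^ 2) e f (by rw [map_pow, ← mul_pow, hc, one_pow])
    (by rw [← pow_mul, mul_comm, pow_mul, om_cube, one_pow]) h)
  simp [dotProduct, pv, tw, Fintype.sum_prod_type, Fin.sum_univ_three] at h1 h2 h3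
  set A := t (0, 0) * (e 0 * f 0) + t (1, 2) * (e 1 * f 2) + t (2, 1) * (e 2 * f 1) with hA
  set B := t (0, 1) * (e 0 * f 1) + t (1, 0) * (e 1 * f 0) + t (2, 2) * (e 2 * f 2) with hB
  set C := t (0, 2) * (e 0 * f 2) + t (2, 0) * (e 2 * f 0) + t (1, 1) * (e 1 * f 1) with hC
  have hr := om_rel
  have hq := om_cube
  have k1 : A + B + C = 0 := by
    rw [hA, hB, hC]
    linear_combination h1
  have k2 : A + om * B + om ^ 2 * C = 0 := by
    rw [hA, hB, hC]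
    linear_combination h2 - (t (1, 2) * (e 1 * f 2) + t (2, 1) * (e 2 * f 1)
      + om * (t (2, 2) * (e 2 * f 2))) * hq
  have k3 : A + om ^ 2 * B + om * C = 0 := by
    rw [hA, hB, hC]
    linear_combination h3 - ((om ^ 3 + 1) * (t (1, 2) * (e 1 * f 2) + t (2, 1) * (e 2 * f 1))
      + om ^ 2 * (om ^ 3 + 1) * (t (2, 2) * (e 2 * f 2))
      + om * (t (0, 2) * (e 0 * f 2) + t (2, 0) * (e 2 * f 0) + t (1, 1) * (e 1 * f 1))) * hq
  have e1 : A = 0 := by
    linear_combination (1 / 3 : ℂ) * (k1 + k2 + k3 - (B + C) * hr)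
  have e2 : B = 0 := by
    linear_combination (1 / 3 : ℂ) * (k1 + om ^ 2 * k2 + om * k3)
      - (1 / 3 : ℂ) * (A * hr + 2 * B * hq + C * (om ^ 2 - om + 1) * hr)
  have e3 : C = 0 := by
    linear_combination k1 - e1 - e2
  exact ⟨e1, e2, e3⟩

/-- zeros of `N3` -/
def Z0 (e f : Fin 3 → ℂ) : Prop := (qf N3 (pv e f)).re = 0

/-- product vectors where the product maximum of `N3` is attained -/
def Z1 (e f : Fin 3 → ℂ) : Prop :=
  (qf N3 (pv e f)).re = 4 * ((∑ i, Complex.normSq (e i)) * ∑ i, Complex.normSq (f i))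

theorem closed_Z0 : Closed Z0 where
  tw ζ e f h1 h3 h := by
    unfold Z0 at *
    rw [qf_tw ζ h1 h3, h]
  sh e f h := by
    unfold Z0 at *
    rw [qf_sh, h]

theorem closed_Z1 : Closed Z1 where
  tw ζ e f h1 h3 h := by
    unfold Z1 at *
    rw [qf_tw ζ h1 h3, h, nsq_tw ζ h1, nsq_tw ζ h1]
  sh e f h := by
    unfold Z1 at *
    rw [qf_sh, h, nsq_sh, nsq_sh]

theorem solve_a (x y z : ℂ) (h1 : 4 * x + 2 * y + 2 * z = 0)
    (h2 : 2 * x + 2 * (1 + Complex.I) * y + 2 * (1 - Complex.I) * z = 0)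
    (h3 : 2 * x + 2 * (1 - Complex.I) * y + 2 * (1 + Complex.I) * z = 0) :
    x = 0 ∧ y = 0 ∧ z = 0 := by
  have hI : Complex.I ^ 2 = -1 := Complex.I_sq
  have hx : x = 0 := by linear_combination (1 / 2 : ℂ) * h1 - (1 / 4 : ℂ) * (h2 + h3)
  have hs : y + z = 0 := by linear_combination (1 / 2 : ℂ) * h1 - 2 * hx
  have hd : y - z = 0 := by
    linear_combination (-(1 / 4 : ℂ) * Complex.I) * (h2 - h3) + (y - z) * hI
  exact ⟨hx, by linear_combination (1 / 2 : ℂ) * (hs + hd),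
    by linear_combination (1 / 2 : ℂ) * (hs - hd)⟩

theorem solve_b (x y z : ℂ) (h1 : x - 2 * y = 0) (h2 : x - 2 * z = 0) (h3 : y + z = 0) :
    x = 0 ∧ y = 0 ∧ z = 0 := by
  have hx : x = 0 := by linear_combination (1 / 2 : ℂ) * (h1 + h2) + h3
  exact ⟨hx, by linear_combination (-(1 / 2 : ℂ)) * (h1 - hx),
    by linear_combination (-(1 / 2 : ℂ)) * (h2 - hx)⟩

theorem span_Z0 (t : Fin 3 × Fin 3 → ℂ) (ht : ∀ e f, Z0 e f → t ⬝ᵥ pv e f = 0) : t = 0 := by
  have h0 : Z0 ![2, 1 + Complex.I, 1 + Complex.I] ![2, 1 - Complex.I, 1 - Complex.I] := by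
    unfold Z0
    rw [qf_N3]
    simp [q3]
    norm_num
  have h1 := closed_Z0.sh _ _ h0
  have h2 := closed_Z0.sh _ _ h1
  obtain ⟨a0, b0, c0⟩ := three_parts closed_Z0 t ht _ _ h0
  obtain ⟨a1, b1, c1⟩ := three_parts closed_Z0 t ht _ _ h1
  obtain ⟨a2, b2, c2⟩ := three_parts closed_Z0 t ht _ _ h2
  simp [sh] at a0 b0 c0 a1 b1 c1 a2 b2 c2
  have hI : Complex.I ^ 2 = -1 := Complex.I_sq
  obtain ⟨x1, y1, z1⟩ := solve_a (t (0, 0)) (t (1, 2)) (t (2, 1))
    (by linear_combination a0 + (t (1, 2) + t (2, 1)) * hI)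
    (by linear_combination a1 + t (0, 0) * hI) (by linear_combination a2 + t (0, 0) * hI)
  obtain ⟨x2, y2, z2⟩ := solve_a (t (2, 2)) (t (1, 0)) (t (0, 1))
    (by linear_combination b1 + (t (0, 1) + t (1, 0)) * hI)
    (by linear_combination b0 + t (2, 2) * hI) (by linear_combination b2 + t (2, 2) * hI)
  obtain ⟨x3, y3, z3⟩ := solve_a (t (1, 1)) (t (2, 0)) (t (0, 2))
    (by linear_combination c2 + (t (0, 2) + t (2, 0)) * hI)
    (by linear_combination c0 + t (1, 1) * hI) (by linear_combination c1 + t (1, 1) * hI)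
  ext ⟨i, j⟩
  fin_cases i <;> fin_cases j <;> assumption

theorem span_Z1 (t : Fin 3 × Fin 3 → ℂ) (ht : ∀ e f, Z1 e f → t ⬝ᵥ pv e f = 0) : t = 0 := by
  have h0 : Z1 ![1, 1, 0] ![1, 1, -2] := by
    unfold Z1
    rw [qf_N3]
    simp [q3, Fin.sum_univ_three, Complex.normSq_apply]
    norm_num
  have h1 := closed_Z1.sh _ _ h0
  have h2 := closed_Z1.sh _ _ h1
  obtain ⟨a0, b0, c0⟩ := three_parts closed_Z1 t ht _ _ h0
  obtain ⟨a1, b1, c1⟩ := three_parts closed_Z1 t ht _ _ h1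
  obtain ⟨a2, b2, c2⟩ := three_parts closed_Z1 t ht _ _ h2
  simp [sh] at a0 b0 c0 a1 b1 c1 a2 b2 c2
  obtain ⟨x1, y1, z1⟩ := solve_b (t (0, 0)) (t (1, 2)) (t (2, 1))
    (by linear_combination a0) (by linear_combination a1) (by linear_combination a2)
  obtain ⟨x2, y2, z2⟩ := solve_b (t (2, 2)) (t (0, 1)) (t (1, 0))
    (by linear_combination b1) (by linear_combination b2) (by linear_combination b0)
  obtain ⟨x3, y3, z3⟩ := solve_b (t (1, 1)) (t (0, 2)) (t (2, 0))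
    (by linear_combination c0) (by linear_combination c2) (by linear_combination c1)
  ext ⟨i, j⟩
  fin_cases i <;> fin_cases j <;> assumption

/-! ### block matrices -/

section blocks

variable {κ : Type} [Fintype κ] [DecidableEq κ] (E : ι ≃ Fin 3 × κ)

/-- `A ⊗ 1` on `(ℂ³ ⊗ ℂ^κ) ⊗ (ℂ³ ⊗ ℂ^κ)` -/
def blk (A : Matrix (Fin 3 × Fin 3) (Fin 3 × Fin 3) ℂ) : Matrix (ι × ι) (ι × ι) ℂ := fun p q =>
  if (E p.1).2 = (E q.1).2 ∧ (E p.2).2 = (E q.2).2 then
    A ((E p.1).1, (E p.2).1) ((E q.1).1, (E q.2).1) else 0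

/-- the components of a vector -/
def comp (e : ι → ℂ) (s : κ) : Fin 3 → ℂ := fun i => e (E.symm (i, s))

omit [DecidableEq ι] [DecidableEq κ] in
theorem sum_split (g : ι × ι → ℂ) :
    ∑ p, g p = ∑ s, ∑ t, ∑ i, ∑ j, g (E.symm (i, s), E.symm (j, t)) := by
  have h0 : ∀ a, ∑ b, g (a, b) = ∑ t, ∑ j, g (a, E.symm (j, t)) := fun a => by
    rw [← E.symm.sum_comp, Fintype.sum_prod_type, Finset.sum_comm]
  rw [Fintype.sum_prod_type]
  simp only [h0]
  rw [← E.symm.sum_comp, Fintype.sum_prod_type, Finset.sum_comm]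
  refine Finset.sum_congr rfl fun s _ => ?_
  rw [Finset.sum_comm]

omit [DecidableEq ι] in
theorem qf_blk (A : Matrix (Fin 3 × Fin 3) (Fin 3 × Fin 3) ℂ) (e f : ι → ℂ) :
    qf (blk E A) (pv e f) = ∑ s, ∑ t, qf A (pv (comp E e s) (comp E f t)) := by
  unfold qf
  simp only [dotProduct, mulVec]
  rw [sum_split E]
  refine Finset.sum_congr rfl fun s _ => Finset.sum_congr rfl fun t _ => ?_
  rw [Fintype.sum_prod_type]
  refine Finset.sum_congr rfl fun i _ => Finset.sum_congr rfl fun j _ => ?_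
  rw [sum_split E, Fintype.sum_prod_type]
  simp only [blk, Equiv.apply_symm_apply, Pi.star_apply, pv, comp]
  congr 1
  rw [Finset.sum_eq_single s, Finset.sum_eq_single t]
  · refine Finset.sum_congr rfl fun i' _ => Finset.sum_congr rfl fun j' _ => ?_
    rw [if_pos ⟨rfl, rfl⟩]
  · intro t' _ ht'
    refine Finset.sum_eq_zero fun i' _ => Finset.sum_eq_zero fun j' _ => ?_
    rw [if_neg (fun h => ht' h.2.symm), zero_mul]
  · intro h
    exact absurd (Finset.mem_univ t) h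
  · intro s' _ hs'
    refine Finset.sum_eq_zero fun t' _ => Finset.sum_eq_zero fun i' _ =>
      Finset.sum_eq_zero fun j' _ => ?_
    rw [if_neg (fun h => hs' h.1.symm), zero_mul]
  · intro h
    exact absurd (Finset.mem_univ s) h

omit [Fintype ι] [DecidableEq ι] [Fintype κ] in
theorem blk_isHermitian {A : Matrix (Fin 3 × Fin 3) (Fin 3 × Fin 3) ℂ} (hA : A.IsHermitian) :
    (blk E A).IsHermitian := by
  ext p q
  simp only [conjTranspose_apply, blk]
  by_cases h : (E p.1).2 = (E q.1).2 ∧ (E p.2).2 = (E q.2).2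
  · rw [if_pos h, if_pos ⟨h.1.symm, h.2.symm⟩]
    exact hA.apply _ _
  · rw [if_neg h, if_neg (fun h' => h ⟨h'.1.symm, h'.2.symm⟩), star_zero]

omit [Fintype ι] [DecidableEq ι] [Fintype κ] in
theorem blk_add (A B : Matrix (Fin 3 × Fin 3) (Fin 3 × Fin 3) ℂ) :
    blk E A + blk E B = blk E (A + B) := by
  ext p q
  simp only [Matrix.add_apply, blk]
  split_ifs <;> simp

omit [Fintype ι] [Fintype κ] in
theorem blk_smul_one (u : ℂ) : blk E (u • 1) = u • (1 : Matrix (ι × ι) (ι × ι) ℂ) := by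
  ext p q
  simp only [blk, Matrix.smul_apply, Matrix.one_apply, smul_eq_mul]
  by_cases h : p = q
  · subst h
    simp
  · rw [if_neg h]
    by_cases h2 : (E p.1).2 = (E q.1).2 ∧ (E p.2).2 = (E q.2).2
    · rw [if_pos h2, if_neg, mul_zero]
      intro h3
      apply h
      obtain ⟨h31, h32⟩ := Prod.mk.inj h3
      have e1 : E p.1 = E q.1 := Prod.ext h31 h2.1
      have e2 : E p.2 = E q.2 := Prod.ext h32 h2.2
      exact Prod.ext (E.injective e1) (E.injective e2)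
    · rw [if_neg h2, mul_zero]

/-- `A ⊗ 1` is optimal if `A` has spanning zeros -/
theorem blk_optimal {A : Matrix (Fin 3 × Fin 3) (Fin 3 × Fin 3) ℂ} (hA : A.IsHermitian)
    (h0 : A ≠ 0) [Nonempty κ] (hb : ∀ e f, 0 ≤ (qf A (pv e f)).re)
    (hz : ∀ t : Fin 3 × Fin 3 → ℂ, (∀ e f, (qf A (pv e f)).re = 0 → t ⬝ᵥ pv e f = 0) → t = 0) :
    IsOptimalEW (blk E A) := by
  refine optimal_of (blk_isHermitian E hA) ?_ ?_ ?_
  · intro h
    apply h0
    obtain ⟨s⟩ := ‹Nonempty κ›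
    ext p q
    have := congrFun (congrFun h (E.symm (p.1, s), E.symm (p.2, s)))
      (E.symm (q.1, s), E.symm (q.2, s))
    simpa [blk] using this
  · intro e f
    rw [qf_blk, Complex.re_sum]
    refine Finset.sum_nonneg fun s _ => ?_
    rw [Complex.re_sum]
    exact Finset.sum_nonneg fun t _ => hb _ _
  · intro t ht
    have key : ∀ s r : κ, (fun p : Fin 3 × Fin 3 => t (E.symm (p.1, s), E.symm (p.2, r))) = 0 := by
      intro s r
      refine hz _ fun e f hef => ?_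
      set e' : ι → ℂ := fun a => if (E a).2 = s then e (E a).1 else 0 with he'
      set f' : ι → ℂ := fun a => if (E a).2 = r then f (E a).1 else 0 with hf'
      have c1 : ∀ s', comp E e' s' = if s' = s then e else 0 := by
        intro s'
        ext i
        simp only [comp, he', Equiv.apply_symm_apply]
        split_ifs <;> simp
      have c2 : ∀ s', comp E f' s' = if s' = r then f else 0 := by
        intro s'
        ext i
        simp only [comp, hf', Equiv.apply_symm_apply]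
        split_ifs <;> simp
      have hzero : ∀ g, pv (0 : Fin 3 → ℂ) g = 0 := fun g => by
        ext p
        simp [pv]
      have hzero' : ∀ g, pv g (0 : Fin 3 → ℂ) = 0 := fun g => by
        ext p
        simp [pv]
      have hq : (qf (blk E A) (pv e' f')).re = 0 := by
        rw [qf_blk, Finset.sum_eq_single s, Finset.sum_eq_single r, c1, c2, if_pos rfl, if_pos rfl,
          hef]
        · intro r' _ hr'
          rw [c2, if_neg hr', hzero']
          simp [qf]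
        · intro h
          exact absurd (Finset.mem_univ r) h
        · intro s' _ hs'
          refine Finset.sum_eq_zero fun r' _ => ?_
          rw [c1, if_neg hs', hzero]
          simp [qf]
        · intro h
          exact absurd (Finset.mem_univ s) h
      have h1 := ht _ _ hq
      rw [dotProduct, sum_split E, Finset.sum_eq_single s, Finset.sum_eq_single r] at h1
      · rw [dotProduct, Fintype.sum_prod_type]
        simpa [pv, he', hf'] using h1
      · intro r' _ hr'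
        refine Finset.sum_eq_zero fun i _ => Finset.sum_eq_zero fun j _ => ?_
        simp [pv, hf', hr']
      · intro h
        exact absurd (Finset.mem_univ r) h
      · intro s' _ hs'
        refine Finset.sum_eq_zero fun r' _ => Finset.sum_eq_zero fun i _ =>
          Finset.sum_eq_zero fun j _ => ?_
        simp [pv, he', hs']
      · intro h
        exact absurd (Finset.mem_univ s) h
    ext p
    have := congrFun (key (E p.1).2 (E p.2).2) ((E p.1).1, (E p.2).1)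
    simpa using this

end blocks

theorem N3_isHermitian : N3.IsHermitian := by
  ext ⟨i, j⟩ ⟨k, l⟩
  fin_cases i <;> fin_cases j <;> fin_cases k <;> fin_cases l <;> simp [N3]

theorem qf_compl (e f : Fin 3 → ℂ) : (qf ((4 : ℂ) • 1 - N3) (pv e f)).re
    = 4 * ((∑ i, Complex.normSq (e i)) * ∑ i, Complex.normSq (f i)) - (qf N3 (pv e f)).re := by
  have h1 : qf ((4 : ℂ) • 1 - N3) (pv e f) = 4 * (star (pv e f) ⬝ᵥ pv e f) - qf N3 (pv e f) := by
    simp only [qf, sub_mulVec, smul_mulVec, dotProduct_sub, dotProduct_smul, smul_eq_mul,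
      one_mulVec]
  have h2 : star (pv e f) ⬝ᵥ pv e f
      = (((∑ i, Complex.normSq (e i)) * ∑ i, Complex.normSq (f i) : ℝ) : ℂ) := by
    rw [Finset.sum_mul_sum, dotProduct, Fintype.sum_prod_type, Complex.ofReal_sum]
    refine Finset.sum_congr rfl fun i _ => ?_
    rw [Complex.ofReal_sum]
    refine Finset.sum_congr rfl fun j _ => ?_
    rw [← Complex.normSq_mul, ← Complex.mul_conj, mul_comm]
    rfl
  rw [h1, h2, Complex.sub_re]
  congr 1
  have : (4 : ℂ) = ((4 : ℝ) : ℂ) := by norm_num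
  rw [this, ← Complex.ofReal_mul, Complex.ofReal_re]

/-- **Theorem.** For every `d = 3k`, `k ≥ 1`, there is a mirrored pair of optimal entanglement
witnesses on `ℂ^d ⊗ ℂ^d`. -/
theorem result : ∀ k : ℕ, 1 ≤ k →
    ∃ W M : Matrix (Fin (3 * k) × Fin (3 * k)) (Fin (3 * k) × Fin (3 * k)) ℂ,
      IsOptimalEW W ∧ IsOptimalEW M ∧ ∃ u : ℝ, W + M = (u : ℂ) • 1 := by
  intro k hk
  have : Nonempty (Fin k) := ⟨⟨0, hk⟩⟩
  have E : Fin (3 * k) ≃ Fin 3 × Fin k := finProdFinEquiv.symm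
  have hN0 : N3 ≠ 0 := by
    intro h
    have := congrFun (congrFun h (0, 1)) (0, 1)
    simp [N3] at this
    norm_num at this
  have hM0 : (4 : ℂ) • 1 - N3 ≠ 0 := by
    intro h
    have := congrFun (congrFun h (0, 1)) (0, 1)
    simp [N3] at this
    norm_num at this
  have hMh : ((4 : ℂ) • (1 : Matrix (Fin 3 × Fin 3) (Fin 3 × Fin 3) ℂ) - N3).IsHermitian := by
    refine IsHermitian.sub ?_ N3_isHermitian
    have := isHermitian_smul (Matrix.isHermitian_one (n := Fin 3 × Fin 3) (α := ℂ)) 4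
    simpa using this
  refine ⟨blk E N3, blk E ((4 : ℂ) • 1 - N3), ?_, ?_, 4, ?_⟩
  · exact blk_optimal E N3_isHermitian hN0 (fun e f => (qf_N3_bounds e f).1) span_Z0
  · refine blk_optimal E hMh hM0 (fun e f => ?_) (fun t ht => span_Z1 t fun e f hef => ht e f ?_)
    · rw [qf_compl]
      linarith [(qf_N3_bounds e f).2]
    · rw [qf_compl, hef, sub_self]
  · rw [blk_add, add_sub_cancel, blk_smul_one]
    norm_num

end Pool.Agent.Results.MP_709dca_mp.MultiplesOfThree
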